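import Pool.Agent.H86.RG.Defs

/-! Partial regularity of stationary harmonic maps (MP_2697e3_an), part E: targets. -/

set_option autoImplicit false

namespace Pool.Agent.H86.RG

open MeasureTheory Metric Set Filter Topology Pool.Agent.H87.SN
open scoped ContDiff RealInnerProductSpace ENNReal

noncomputable section

/-! ### the kernels -/

/-- KER: the kernels exist -/
def T_KER : Prop := ∀ n : ℕ, 1 ≤ n → ∃ φ ζ : E n → ℝ, IsKer φ ζ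

/-- DIL: dilations -/
def T_DIL : Prop := ∀ (n : ℕ) (k : E n → ℝ) (t : ℝ), 0 < t → ContDiff ℝ ∞ k →
  (∀ x, 1 ≤ ‖x‖ → k x = 0) →
  ContDiff ℝ ∞ (dil k t) ∧ (∀ x, t ≤ ‖x‖ → dil k t x = 0) ∧
  (∀ i, dd i (dil k t) = fun x => t⁻¹ * dil (dd i k) t x) ∧
  (∫ x, dil k t x = ∫ x, k x) ∧
  (∀ i, ContDiff ℝ ∞ (dd i k) ∧ (∀ x, 1 ≤ ‖x‖ → dd i k x = 0) ∧ ∫ x, dd i k x = 0)

/-- DCV: convolution of a kernel with an integrable function -/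
def T_DCV : Prop := ∀ (n : ℕ) (k g : E n → ℝ) (t : ℝ), 0 < t → ContDiff ℝ ∞ k →
  (∀ x, 1 ≤ ‖x‖ → k x = 0) → Integrable g →
  ContDiff ℝ ∞ (cv (dil k t) g) ∧
  (∀ i x, dd i (cv (dil k t) g) x = t⁻¹ * cv (dil (dd i k) t) g x) ∧
  ∀ (M : ℝ) (x : E n), (∀ y, |k y| ≤ M) →
    |cv (dil k t) g x| ≤ M * (t ^ n)⁻¹ * ∫ y in ball x t, |g y|

/-- TRC: only the values near the point matter -/
def T_TRC : Prop := ∀ (n : ℕ) (k g : E n → ℝ) (x₀ : E n) (R t : ℝ), 0 < t → t ≤ R →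
  (∀ x, 1 ≤ ‖x‖ → k x = 0) → ∀ x ∈ ball x₀ R,
    cv (dil k t) g x = cv (dil k t) ((ball x₀ (2 * R)).indicator g) x

/-- REP: the telescoping identity -/
def T_REP : Prop := ∀ (n : ℕ) (φ ζ : E n → ℝ), IsKer φ ζ → ∀ (v g : E n → ℝ) (x₀ : E n) (R : ℝ),
  IntegrableOn v (ball x₀ (2 * R)) → IntegrableOn g (ball x₀ (2 * R)) →
  WLap (ball x₀ (2 * R)) v g → ∀ x ∈ ball x₀ R, ∀ t : ℝ, 0 < t → t ≤ R →
    cv (dil φ (t / 2)) v x = cv (dil φ t) v x - t ^ 2 * cv (dil ζ t) g x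

/-- RPG: the telescoping identity with the gradient -/
def T_RPG : Prop := ∀ (n : ℕ) (φ ζ : E n → ℝ), IsKer φ ζ → ∀ (v : E n → ℝ) (D : E n → E n)
  (x₀ : E n) (R : ℝ), IntegrableOn v (ball x₀ (2 * R)) → IntegrableOn D (ball x₀ (2 * R)) →
  WGr (ball x₀ (2 * R)) v D → ∀ x ∈ ball x₀ R, ∀ t : ℝ, 0 < t → t ≤ R →
    cv (dil φ (t / 2)) v x =
      cv (dil φ t) v x + t * ∑ i : Fin n, cv (dil (dd i ζ) t) (fun y => D y i) x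

/-- LIM: the means converge -/
def T_LIM : Prop := ∀ (n : ℕ) (φ ζ : E n → ℝ), IsKer φ ζ → ∀ (v : E n → ℝ) (x₀ : E n) (R : ℝ),
  0 < R → IntegrableOn v (ball x₀ (2 * R)) →
  (∀ᵐ x ∂(volume.restrict (ball x₀ R)),
    Tendsto (fun k : ℕ => cv (dil φ (R / 2 ^ k)) v x) atTop (𝓝 (v x))) ∧
  (ContinuousOn v (ball x₀ (2 * R)) → ∀ x ∈ ball x₀ R,
    Tendsto (fun k : ℕ => cv (dil φ (R / 2 ^ k)) v x) atTop (𝓝 (v x)))

/-! ### Hölder sums and the classes -/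

/-- HSM: Hölder continuity of a sum -/
def T_HSM : Prop := ∀ (n : ℕ) (σ θ A R : ℝ) (x₀ : E n) (w : ℕ → E n → ℝ), 0 < θ → θ < σ →
  σ ≤ 1 → 0 < R → (∀ k, ContDiff ℝ ∞ (w k)) →
  (∀ k, ∀ x ∈ ball x₀ R, |w k x| ≤ A * (R / 2 ^ k) ^ σ) →
  (∀ k, ∀ x ∈ ball x₀ R, ∀ i, |dd i (w k) x| ≤ A * (R / 2 ^ k) ^ (σ - 1)) →
  (∀ x ∈ ball x₀ R, Summable fun k => w k x) ∧
  ∃ C : ℝ, ∀ x ∈ ball x₀ R, ∀ y ∈ ball x₀ R,
    |(∑' k, w k x) - ∑' k, w k y| ≤ C * ‖x - y‖ ^ θ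

/-- TEL: sums in the classes -/
def T_TEL : Prop := ∀ (n p : ℕ) (σ A R : ℝ) (x₀ : E n) (w : ℕ → E n → ℝ), 0 < σ → σ ≤ 1 →
  0 < R → (∀ k, ContDiff ℝ ∞ (w k)) →
  (∀ l : List (Fin n), l.length ≤ p → ∀ k, ∀ x ∈ ball x₀ R,
    |dds l (w k) x| ≤ A * (R / 2 ^ k) ^ σ) →
  (∀ l : List (Fin n), l.length = p + 1 → ∀ k, ∀ x ∈ ball x₀ R,
    |dds l (w k) x| ≤ A * (R / 2 ^ k) ^ (σ - 1)) →
  HH p (fun x => ∑' k, w k x) (ball x₀ R)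

/-- HHA: elementary properties of the classes -/
def T_HHA : Prop := ∀ n : ℕ,
  (∀ (j : ℕ) (v w : E n → ℝ) (U : Set (E n)), IsOpen U → (∀ x ∈ U, v x = w x) → HH j v U →
    HH j w U) ∧
  (∀ (j : ℕ) (v : E n → ℝ) (U V : Set (E n)), V ⊆ U → HH j v U → HH j v V) ∧
  (∀ (j : ℕ) (v : E n → ℝ) (U : Set (E n)), IsOpen U → ContDiffOn ℝ ∞ v U → HH j v U) ∧
  (∀ (j : ℕ) (v : E n → ℝ) (U : Set (E n)), IsOpen U → HH (j + 1) v U → HH j v U) ∧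
  (∀ (j : ℕ) (v : E n → ℝ) (U : Set (E n)), IsOpen U → HH j v U → ContDiffOn ℝ j v U) ∧
  (∀ (j : ℕ) (v : E n → ℝ) (U : Set (E n)),
    (∀ x ∈ U, ∃ V : Set (E n), IsOpen V ∧ x ∈ V ∧ HH j v V) → HH j v U)

/-- HHM: sums and products -/
def T_HHM : Prop := ∀ (n j : ℕ) (v w : E n → ℝ) (U : Set (E n)), IsOpen U → HH j v U →
  HH j w U → HH j (fun x => v x + w x) U ∧ HH j (fun x => v x * w x) U ∧
    ∀ c : ℝ, HH j (fun x => c * v x) U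

/-- HHC: composition with smooth functions -/
def T_HHC : Prop := ∀ (n m j : ℕ) (F : E m → ℝ) (V : Set (E m)) (u : E n → E m) (U : Set (E n)),
  IsOpen U → IsOpen V → ContDiffOn ℝ ∞ F V → (∀ x ∈ U, u x ∈ V) →
  (∀ a : Fin m, HH j (fun x => u x a) U) → HH j (fun x => F (u x)) U

/-! ### the three regularity lemmas -/

/-- MOR: Morrey decay of the gradient gives a Hölder continuous representative -/
def T_MOR : Prop := ∀ (n : ℕ) (v : E n → ℝ) (D : E n → E n) (x₀ : E n) (R C α θ : ℝ), 1 ≤ n →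
  0 < R → 0 < θ → θ < α → α ≤ 1 → IntegrableOn v (ball x₀ (2 * R)) →
  IntegrableOn D (ball x₀ (2 * R)) → WGr (ball x₀ (2 * R)) v D →
  (∀ x ∈ ball x₀ R, ∀ r : ℝ, 0 < r → r ≤ R →
    ∫ y in ball x r, ‖D y‖ ≤ C * r ^ ((n : ℝ) - 1 + α)) →
  ∃ v' : E n → ℝ, (∀ᵐ x ∂(volume.restrict (ball x₀ R)), v' x = v x) ∧
    ∃ C' : ℝ, ∀ x ∈ ball x₀ R, ∀ y ∈ ball x₀ R, |v' x - v' y| ≤ C' * ‖x - y‖ ^ θ

/-- PC1: Morrey decay of the Laplacian gives a Hölder continuous gradient -/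
def T_PC1 : Prop := ∀ (n : ℕ) (v g : E n → ℝ) (x₀ : E n) (R C s : ℝ), 1 ≤ n → 0 < R → 1 < s →
  s ≤ 2 → ContinuousOn v (ball x₀ (2 * R)) → IntegrableOn v (ball x₀ (2 * R)) →
  IntegrableOn g (ball x₀ (2 * R)) → WLap (ball x₀ (2 * R)) v g →
  (∀ x ∈ ball x₀ R, ∀ r : ℝ, 0 < r → r ≤ R →
    ∫ y in ball x r, |g y| ≤ C * r ^ ((n : ℝ) - 2 + s)) → HH 1 v (ball x₀ R)

/-- SCH: a Hölder continuous Laplacian gives Hölder continuous second derivatives -/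
def T_SCH : Prop := ∀ (n : ℕ) (v g : E n → ℝ) (x₀ : E n) (R C γ : ℝ), 1 ≤ n → 0 < R → 0 < γ →
  γ ≤ 1 → ContinuousOn v (ball x₀ (2 * R)) → IntegrableOn v (ball x₀ (2 * R)) →
  (∀ y ∈ ball x₀ (2 * R), ∀ z ∈ ball x₀ (2 * R), |g y - g z| ≤ C * ‖y - z‖ ^ γ) →
  WLap (ball x₀ (2 * R)) v g → HH 2 v (ball x₀ R)

/-- LRG: linear regularity in the classes -/
def T_LRG : Prop := ∀ (n j : ℕ) (v g : E n → ℝ) (U : Set (E n)), 1 ≤ n → IsOpen U →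
  ContinuousOn v U → HH j g U → WLap U v g → HH (j + 2) v U

/-! ### harmonic maps -/

/-- the weak form of `-Δu = f` on `U`, with the weak gradients `D a` of the components -/
structure Sol {n m : ℕ} (U : Set (E n)) (u : E n → E m) (D : Fin m → E n → E n)
    (f : E n → E m) : Prop where
  iu : ∀ a, IntegrableOn (fun x => u x a) U
  iD : ∀ a, MemLp (D a) 2 (volume.restrict U)
  iF : ∀ a, IntegrableOn (fun x => f x a) U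
  gr : ∀ a, WGr U (fun x => u x a) (D a)
  eq : ∀ a, ∀ ψ : E n → ℝ, Tst U ψ → ∫ x, ∑ i : Fin n, dd i ψ x * D a x i = ∫ x, ψ x * f x a

/-- CAC: Caccioppoli's inequality at small scales for Hölder continuous solutions -/
def T_CAC : Prop := ∀ (n m : ℕ) (u : E n → E m) (D : Fin m → E n → E n) (f : E n → E m)
  (x₀ : E n) (R K C θ : ℝ), 1 ≤ n → 0 < R → 0 < θ → θ ≤ 1 → Sol (ball x₀ (2 * R)) u D f →
  (∀ᵐ x ∂(volume.restrict (ball x₀ (2 * R))), ‖f x‖ ≤ K * ∑ a, ‖D a x‖ ^ 2) →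
  (∀ x ∈ ball x₀ (2 * R), ∀ y ∈ ball x₀ (2 * R), ‖u x - u y‖ ≤ C * ‖x - y‖ ^ θ) →
  ∃ C' r₀ : ℝ, 0 < r₀ ∧ r₀ ≤ R ∧ ∀ x ∈ ball x₀ R, ∀ r : ℝ, 0 < r → r ≤ r₀ →
    ∫ y in ball x r, ∑ a, ‖D a y‖ ^ 2 ≤ C' * r ^ ((n : ℝ) - 2 + 2 * θ)

/-- C1: Hölder continuous gradient of harmonic maps with Morrey decay -/
def T_C1 : Prop := ∀ (n m : ℕ) (u : E n → E m) (D : Fin m → E n → E n) (f : E n → E m)
  (x₀ : E n) (R K C : ℝ), 1 ≤ n → 0 < R → Sol (ball x₀ (2 * R)) u D f →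
  (∀ᵐ x ∂(volume.restrict (ball x₀ (2 * R))), ‖f x‖ ≤ K * ∑ a, ‖D a x‖ ^ 2) →
  (∀ x ∈ ball x₀ R, ∀ r : ℝ, 0 < r → r ≤ R →
    ∫ y in ball x r, ∑ a, ‖D a y‖ ≤ C * r ^ ((n : ℝ) - 1 + 3 / 4)) →
  ∃ (u' : E n → E m) (r : ℝ), 0 < r ∧ r ≤ R ∧
    (∀ᵐ x ∂(volume.restrict (ball x₀ r)), u' x = u x) ∧ (∀ a, HH 1 (fun x => u' x a) (ball x₀ r)) ∧
    ∀ᵐ x ∂(volume.restrict (ball x₀ r)), ∀ a i, D a x i = dd i (fun y => u' y a) x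

/-- the local form of the right side: near every point of `N` it is `∑ᵢ F(u)(∂ᵢu, ∂ᵢu)` with a
smooth `F` -/
def LocF {n m : ℕ} (N : Set (E m)) (U : Set (E n)) (u : E n → E m) (D : Fin m → E n → E n)
    (f : E n → E m) : Prop :=
  ∀ p ∈ N, ∃ (V : Set (E m)) (F : Fin m → Fin m → Fin m → E m → ℝ), IsOpen V ∧ p ∈ V ∧
    (∀ a b c, ContDiffOn ℝ ∞ (F a b c) V) ∧ ∀ᵐ x ∂(volume.restrict U), u x ∈ V →
      ∀ a, f x a = ∑ i : Fin n, ∑ b, ∑ c, F a b c (u x) * D b x i * D c x i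

/-- E: smoothness of harmonic maps with Morrey decay -/
def T_E : Prop := ∀ (n m : ℕ) (N : Set (E m)) (u : E n → E m) (D : Fin m → E n → E n)
  (f : E n → E m) (x₀ : E n) (R K C : ℝ), 1 ≤ n → 0 < R → IsClosed N →
  Sol (ball x₀ (2 * R)) u D f → (∀ᵐ x ∂(volume.restrict (ball x₀ (2 * R))), u x ∈ N) →
  LocF N (ball x₀ (2 * R)) u D f →
  (∀ᵐ x ∂(volume.restrict (ball x₀ (2 * R))), ‖f x‖ ≤ K * ∑ a, ‖D a x‖ ^ 2) →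
  (∀ x ∈ ball x₀ R, ∀ r : ℝ, 0 < r → r ≤ R →
    ∫ y in ball x r, ∑ a, ‖D a y‖ ≤ C * r ^ ((n : ℝ) - 1 + 3 / 4)) →
  ∃ (u' : E n → E m) (r : ℝ), 0 < r ∧ r ≤ R ∧
    (∀ᵐ x ∂(volume.restrict (ball x₀ r)), u' x = u x) ∧ ContDiffOn ℝ ∞ u' (ball x₀ r)

end

end Pool.Agent.H86.RG
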