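import Pool.Agent.H86.RG.Targets

/-! KER: the kernels of the telescoping identity. -/

set_option autoImplicit false

namespace Pool.Agent.H86.RG

open MeasureTheory Metric Set Filter Topology Pool.Agent.H87.SN
open scoped ContDiff RealInnerProductSpace ENNReal

noncomputable section

/-- `∫_1^2 s^p f(s² t) ds` -/
def Gp (p : ℕ) (f : ℝ → ℝ) (t : ℝ) : ℝ := ∫ s in (1 : ℝ)..2, s ^ p * f (s ^ 2 * t)

theorem Gp_deriv (p : ℕ) {f : ℝ → ℝ} (hf : ContDiff ℝ ∞ f) (t : ℝ) :
    HasDerivAt (Gp p f) (Gp (p + 2) (deriv f) t) t := by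
  have hd : Differentiable ℝ f := (contDiff_infty_iff_deriv.1 hf).1
  have hf' : Continuous (deriv f) := hf.continuous_deriv (by simp)
  have hc : Continuous fun q : ℝ × ℝ => q.2 ^ (p + 2) * deriv f (q.2 ^ 2 * q.1) := by fun_prop
  have hfc : Continuous f := hf.continuous
  obtain ⟨M, hM⟩ : ∃ M, ∀ q ∈ (closedBall t 1 ×ˢ Icc (1 : ℝ) 2 : Set (ℝ × ℝ)),
      ‖q.2 ^ (p + 2) * deriv f (q.2 ^ 2 * q.1)‖ ≤ M := by
    have hK : IsCompact (closedBall t 1 ×ˢ Icc (1 : ℝ) 2 : Set (ℝ × ℝ)) :=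
      (isCompact_closedBall t 1).prod isCompact_Icc
    exact hK.exists_bound_of_continuousOn hc.continuousOn
  have h1 := intervalIntegral.hasDerivAt_integral_of_dominated_loc_of_deriv_le
    (μ := volume) (a := 1) (b := 2) (𝕜 := ℝ) (E := ℝ)
    (F := fun t s => s ^ p * f (s ^ 2 * t))
    (F' := fun t s => s ^ (p + 2) * deriv f (s ^ 2 * t)) (x₀ := t) (s := closedBall t 1)
    (bound := fun _ => M) (closedBall_mem_nhds t one_pos)
    (Eventually.of_forall fun t' => (by fun_prop : Continuous fun s : ℝ =>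
      s ^ p * f (s ^ 2 * t')).aestronglyMeasurable)
    ((by fun_prop : Continuous fun s : ℝ => s ^ p * f (s ^ 2 * t)).intervalIntegrable 1 2)
    ((by fun_prop : Continuous fun s : ℝ =>
      s ^ (p + 2) * deriv f (s ^ 2 * t)).aestronglyMeasurable)
    (ae_of_all _ fun s hs t' ht' => by
      rw [uIoc_of_le (by norm_num)] at hs
      exact hM (t', s) ⟨ht', hs.1.le, hs.2⟩)
    intervalIntegrable_const
    (ae_of_all _ fun s _ t' _ => by
      have h2 : HasDerivAt (fun x : ℝ => s ^ 2 * x) (s ^ 2) t' := by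
        simpa using (hasDerivAt_id t').const_mul (s ^ 2)
      have h3 := ((hd (s ^ 2 * t')).hasDerivAt.comp t' h2).const_mul (s ^ p)
      refine h3.congr_deriv ?_
      ring)
  exact h1.2

theorem Gp_smooth_nat (j : ℕ) : ∀ (p : ℕ) (f : ℝ → ℝ), ContDiff ℝ ∞ f → ContDiff ℝ j (Gp p f) := by
  induction j with
  | zero =>
    intro p f hf
    have : Differentiable ℝ (Gp p f) := fun t => (Gp_deriv p hf t).differentiableAt
    exact contDiff_zero.2 this.continuous
  | succ j ih =>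
    intro p f hf
    have h1 : deriv (Gp p f) = Gp (p + 2) (deriv f) := by
      funext t
      exact (Gp_deriv p hf t).deriv
    have h2 : ContDiff ℝ (j + 1 : ℕ∞ω) (Gp p f) := by
      rw [contDiff_succ_iff_deriv]
      refine ⟨fun t => (Gp_deriv p hf t).differentiableAt, fun h => ?_, ?_⟩
      · exact absurd h (by simp)
      · rw [h1]
        exact ih (p + 2) (deriv f) (contDiff_infty_iff_deriv.1 hf).2
    exact_mod_cast h2

theorem Gp_smooth (p : ℕ) {f : ℝ → ℝ} (hf : ContDiff ℝ ∞ f) : ContDiff ℝ ∞ (Gp p f) :=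
  contDiff_infty.2 fun j => Gp_smooth_nat j p f hf

theorem dd_radial {n : ℕ} {f f' : ℝ → ℝ} (hf : ∀ t, HasDerivAt f (f' t) t) (i : Fin n)
    (x : E n) : dd i (fun y : E n => f (‖y‖ ^ 2)) x = 2 * x i * f' (‖x‖ ^ 2) := by
  have h1 : HasFDerivAt (fun y : E n => ‖y‖ ^ 2) (2 • (innerSL ℝ x)) x :=
    (hasStrictFDerivAt_norm_sq x).hasFDerivAt
  have h2 := (hf (‖x‖ ^ 2)).comp_hasFDerivAt x h1
  have h3 : fderiv ℝ (fun y : E n => f (‖y‖ ^ 2)) x = f' (‖x‖ ^ 2) • (2 • (innerSL ℝ x)) :=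
    h2.fderiv
  unfold dd
  rw [h3]
  simp only [ContinuousLinearMap.smul_apply, innerSL_apply_apply, smul_eq_mul, nsmul_eq_mul]
  have h4 : ⟪x, (bv i : E n)⟫ = x i := by
    unfold bv
    simp [EuclideanSpace.inner_single_right]
  rw [h4]
  push_cast
  ring

theorem lap_radial {n : ℕ} {f f' f'' : ℝ → ℝ} (hf : ∀ t, HasDerivAt f (f' t) t)
    (hf' : ∀ t, HasDerivAt f' (f'' t) t) (x : E n) :
    lap (fun y : E n => f (‖y‖ ^ 2)) x = 4 * ‖x‖ ^ 2 * f'' (‖x‖ ^ 2) + 2 * n * f' (‖x‖ ^ 2) := by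
  have h1 : ∀ i : Fin n, dd i (dd i (fun y : E n => f (‖y‖ ^ 2))) x =
      4 * (x i) ^ 2 * f'' (‖x‖ ^ 2) + 2 * f' (‖x‖ ^ 2) := by
    intro i
    have h2 : dd i (fun y : E n => f (‖y‖ ^ 2)) = fun y : E n => (2 * y i) * f' (‖y‖ ^ 2) := by
      funext y
      exact dd_radial hf i y
    rw [h2]
    have h3 : HasFDerivAt (fun y : E n => f' (‖y‖ ^ 2)) (f'' (‖x‖ ^ 2) • (2 • (innerSL ℝ x))) x :=
      (hf' (‖x‖ ^ 2)).comp_hasFDerivAt x (hasStrictFDerivAt_norm_sq x).hasFDerivAt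
    have h4 : HasFDerivAt (fun y : E n => 2 * y i) ((2 : ℝ) • (EuclideanSpace.proj i : E n →L[ℝ] ℝ))
        x := (EuclideanSpace.proj i : E n →L[ℝ] ℝ).hasFDerivAt.const_mul 2
    have h5 := h4.mul h3
    unfold dd
    have h6 : fderiv ℝ (fun y : E n => 2 * y i * f' (‖y‖ ^ 2)) x = _ := h5.fderiv
    rw [h6]
    have h7 : ⟪x, (bv i : E n)⟫ = x i := by
      unfold bv
      simp [EuclideanSpace.inner_single_right]
    have h8 : (EuclideanSpace.proj i : E n →L[ℝ] ℝ) (bv i) = 1 := by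
      unfold bv
      simp
    simp only [ContinuousLinearMap.add_apply, ContinuousLinearMap.smul_apply, innerSL_apply_apply,
      smul_eq_mul, nsmul_eq_mul, h7, h8]
    push_cast
    ring
  unfold lap
  rw [Finset.sum_congr rfl fun i _ => h1 i, Finset.sum_add_distrib, ← Finset.sum_mul,
    ← Finset.mul_sum, Finset.sum_const, Finset.card_univ, Fintype.card_fin, nsmul_eq_mul,
    EuclideanSpace.norm_sq_eq]
  simp only [Real.norm_eq_abs, sq_abs]
  ring

/-- the profile -/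
def kf (t : ℝ) : ℝ := Real.smoothTransition (2 - 4 * t)

theorem kf_smooth : ContDiff ℝ ∞ kf := by
  unfold kf
  exact Real.smoothTransition.contDiff.comp (contDiff_const.sub (contDiff_const.mul contDiff_id))

theorem kf_zero {t : ℝ} (ht : 1 / 2 ≤ t) : kf t = 0 :=
  Real.smoothTransition.zero_of_nonpos (by linarith)

theorem pf_KER : T_KER := by
  intro n hn
  obtain ⟨p, rfl⟩ : ∃ p, n = p + 1 := ⟨n - 1, by omega⟩
  -- the profile of the second kernel
  obtain ⟨L, hL⟩ : ∃ L : ℝ → ℝ, L = fun t => 1 / 2 * Gp p kf t := ⟨_, rfl⟩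
  obtain ⟨L', hL'⟩ : ∃ L' : ℝ → ℝ, L' = fun t => 1 / 2 * Gp (p + 2) (deriv kf) t := ⟨_, rfl⟩
  have hLs : ContDiff ℝ ∞ L := by
    rw [hL]
    exact contDiff_const.mul (Gp_smooth p kf_smooth)
  have hLd : ∀ t, HasDerivAt L (L' t) t := by
    intro t
    rw [hL, hL']
    exact (Gp_deriv p kf_smooth t).const_mul (1 / 2)
  have hLz : ∀ t, 1 / 2 ≤ t → L t = 0 := by
    intro t ht
    have h1 : Gp p kf t = ∫ s in (1 : ℝ)..2, (0 : ℝ) := by
      unfold Gp
      refine intervalIntegral.integral_congr fun s hs => ?_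
      rw [uIcc_of_le (by norm_num)] at hs
      have h2 : 1 / 2 ≤ s ^ 2 * t := by nlinarith [hs.1]
      show s ^ p * kf (s ^ 2 * t) = 0
      rw [kf_zero h2, mul_zero]
    rw [hL]
    beta_reduce
    rw [h1]
    simp
  obtain ⟨K, hK⟩ : ∃ K : ℝ → ℝ, K = fun t => ∫ s in (1 : ℝ)..t, L s := ⟨_, rfl⟩
  have hKd : ∀ t, HasDerivAt K (L t) t := by
    intro t
    rw [hK]
    exact intervalIntegral.integral_hasDerivAt_right (hLs.continuous.intervalIntegrable _ _)
      (hLs.continuous.stronglyMeasurableAtFilter _ _) hLs.continuous.continuousAt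
  have hKs : ContDiff ℝ ∞ K := by
    rw [contDiff_infty_iff_deriv]
    refine ⟨fun t => (hKd t).differentiableAt, ?_⟩
    have : deriv K = L := funext fun t => (hKd t).deriv
    rw [this]
    exact hLs
  have hKz : ∀ t, 1 ≤ t → K t = 0 := by
    intro t ht
    rw [hK]
    have h1 : ∫ s in (1 : ℝ)..t, L s = ∫ s in (1 : ℝ)..t, (0 : ℝ) := by
      refine intervalIntegral.integral_congr fun s hs => ?_
      rw [uIcc_of_le ht] at hs
      exact hLz s (by linarith [hs.1])
    beta_reduce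
    rw [h1]
    simp
  -- the identity for the profiles
  have hid : ∀ t, 4 * t * L' t + 2 * ((p + 1 : ℕ) : ℝ) * L t = 2 ^ (p + 1) * kf (4 * t) - kf t := by
    intro t
    have hkd : Differentiable ℝ kf := (contDiff_infty_iff_deriv.1 kf_smooth).1
    have hkc : Continuous (deriv kf) := kf_smooth.continuous_deriv (by simp)
    have hkc0 : Continuous kf := kf_smooth.continuous
    have h1 : ∀ s : ℝ, HasDerivAt (fun s : ℝ => s ^ (p + 1) * kf (s ^ 2 * t))
        (2 * t * (s ^ (p + 2) * deriv kf (s ^ 2 * t)) +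
          ((p + 1 : ℕ) : ℝ) * (s ^ p * kf (s ^ 2 * t))) s := by
      intro s
      have h2 : HasDerivAt (fun s : ℝ => s ^ 2 * t) (2 * s * t) s := by
        have := (hasDerivAt_pow 2 s).mul_const t
        refine this.congr_deriv ?_
        norm_num
      have h3 := (hasDerivAt_pow (p + 1) s).mul ((hkd (s ^ 2 * t)).hasDerivAt.comp s h2)
      refine h3.congr_deriv ?_
      rw [Nat.add_sub_cancel]
      show ((p + 1 : ℕ) : ℝ) * s ^ p * kf (s ^ 2 * t) +
        s ^ (p + 1) * (deriv kf (s ^ 2 * t) * (2 * s * t)) = _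
      ring
    have h4 := intervalIntegral.integral_eq_sub_of_hasDerivAt (a := 1) (b := 2)
      (fun s _ => h1 s) ((by fun_prop : Continuous fun s : ℝ =>
        2 * t * (s ^ (p + 2) * deriv kf (s ^ 2 * t)) +
          ((p + 1 : ℕ) : ℝ) * (s ^ p * kf (s ^ 2 * t))).intervalIntegrable _ _)
    rw [intervalIntegral.integral_add
      ((by fun_prop : Continuous fun s : ℝ =>
        2 * t * (s ^ (p + 2) * deriv kf (s ^ 2 * t))).intervalIntegrable _ _)
      ((by fun_prop : Continuous fun s : ℝ =>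
        ((p + 1 : ℕ) : ℝ) * (s ^ p * kf (s ^ 2 * t))).intervalIntegrable _ _),
      intervalIntegral.integral_const_mul, intervalIntegral.integral_const_mul] at h4
    have h5 : (2 : ℝ) ^ 2 * t = 4 * t := by norm_num
    have h6 : (1 : ℝ) ^ 2 * t = t := by norm_num
    rw [h5, h6, one_pow, one_mul] at h4
    rw [hL, hL', ← h4]
    unfold Gp
    ring
  -- normalization
  obtain ⟨I, hI⟩ : ∃ I : ℝ, I = ∫ x : E (p + 1), kf (‖x‖ ^ 2) := ⟨_, rfl⟩
  have hφc : Continuous fun x : E (p + 1) => kf (‖x‖ ^ 2) :=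
    kf_smooth.continuous.comp (continuous_norm.pow 2)
  have hI0 : 0 < I := by
    rw [hI]
    refine hφc.integral_pos_of_hasCompactSupport_nonneg_nonzero (x := 0) ?_ ?_ ?_
    · refine HasCompactSupport.intro (isCompact_closedBall (0 : E (p + 1)) 1) fun x hx => ?_
      rw [mem_closedBall, dist_zero_right, not_le] at hx
      exact kf_zero (by nlinarith)
    · exact fun x => Real.smoothTransition.nonneg _
    · rw [norm_zero]
      unfold kf
      norm_num [Real.smoothTransition.eq_one_iff_one_le]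
  have hns : ContDiff ℝ ∞ fun x : E (p + 1) => ‖x‖ ^ 2 := contDiff_norm_sq ℝ
  refine ⟨fun x => I⁻¹ * kf (‖x‖ ^ 2), fun x => I⁻¹ * K (‖x‖ ^ 2), ?_, ?_, ?_, ?_, ?_, ?_, ?_, ?_⟩
  · exact contDiff_const.mul (kf_smooth.comp hns)
  · exact contDiff_const.mul (hKs.comp hns)
  · intro x hx
    rw [kf_zero (by nlinarith), mul_zero]
  · intro x hx
    rw [hKz _ (by nlinarith), mul_zero]
  · intro x
    exact mul_nonneg (by positivity) (Real.smoothTransition.nonneg _)
  · intro x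
    rw [norm_neg]
  · rw [integral_const_mul, ← hI]
    exact inv_mul_cancel₀ hI0.ne'
  · intro x
    have h1 := lap_radial (n := p + 1) (f := fun t => I⁻¹ * K t) (f' := fun t => I⁻¹ * L t)
      (f'' := fun t => I⁻¹ * L' t) (fun t => (hKd t).const_mul _) (fun t => (hLd t).const_mul _) x
    rw [h1]
    have h2 := hid (‖x‖ ^ 2)
    have h3 : ‖(2 : ℝ) • x‖ ^ 2 = 4 * ‖x‖ ^ 2 := by
      rw [norm_smul, mul_pow]
      norm_num
    rw [h3]
    linear_combination (-I⁻¹) * h2

end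

end Pool.Agent.H86.RG
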