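import Pool.Agent.H86.RG.Targets
import Pool.Agent.H70.RG.Targets

/-! Partial regularity of stationary harmonic maps (MP_2697e3_an), part E: targets, second part
(with the classes `HH` of `Pool.Agent.H70.RG`). -/

set_option autoImplicit false

namespace Pool.Agent.H86.RG

open MeasureTheory Metric Set Filter Topology Pool.Agent.H87.SN
open scoped ContDiff RealInnerProductSpace ENNReal

noncomputable section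

/-- INT: interpolation between a bound of the function and a bound of its derivatives -/
def T_INT : Prop := ∀ (n : ℕ) (σ θ A t R : ℝ) (x₀ : E n) (f : E n → ℝ), 0 < θ → θ ≤ 1 → 0 < t →
  0 ≤ A → ContDiff ℝ ∞ f → (∀ x ∈ ball x₀ R, |f x| ≤ A * t ^ σ) →
  (∀ x ∈ ball x₀ R, ∀ i, |dd i f x| ≤ A * t ^ (σ - 1)) →
  ∀ y ∈ ball x₀ R, ∀ z ∈ ball x₀ R, |f y - f z| ≤ (2 + n) * A * t ^ (σ - θ) * ‖y - z‖ ^ θ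

/-- SM0: Hölder continuous sums -/
def T_SM0 : Prop := ∀ (n : ℕ) (σ θ A R : ℝ) (x₀ : E n) (w : ℕ → E n → ℝ), 0 < θ → θ < σ →
  θ ≤ 1 → 0 < R → 0 ≤ A → (∀ k, ContDiff ℝ ∞ (w k)) →
  (∀ k, ∀ x ∈ ball x₀ R, |w k x| ≤ A * (R / 2 ^ k) ^ σ) →
  (∀ k, ∀ x ∈ ball x₀ R, ∀ i, |dd i (w k) x| ≤ A * (R / 2 ^ k) ^ (σ - 1)) →
  (∀ x ∈ ball x₀ R, Summable fun k => w k x) ∧
  ∃ C : ℝ, ∀ x ∈ ball x₀ R, ∀ y ∈ ball x₀ R,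
    |(∑' k, w k x) - ∑' k, w k y| ≤ C * ‖x - y‖ ^ θ

/-- SM1: sums with Hölder continuous gradient -/
def T_SM1 : Prop := ∀ (n : ℕ) (σ A R : ℝ) (x₀ : E n) (w : ℕ → E n → ℝ), 0 < σ → σ ≤ 1 →
  0 < R → 0 ≤ A → (∀ k, ContDiff ℝ ∞ (w k)) →
  (∀ k, ∀ x ∈ ball x₀ R, |w k x| ≤ A * (R / 2 ^ k) ^ σ) →
  (∀ k, ∀ x ∈ ball x₀ R, ∀ i, |dd i (w k) x| ≤ A * (R / 2 ^ k) ^ σ) →
  (∀ k, ∀ x ∈ ball x₀ R, ∀ i j, |dd j (dd i (w k)) x| ≤ A * (R / 2 ^ k) ^ (σ - 1)) →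
  (∀ x ∈ ball x₀ R, Summable fun k => w k x) ∧
  Pool.Agent.H70.RG.HH 1 (fun x => ∑' k, w k x) (ball x₀ R)

/-- P1: Morrey decay of the Laplacian gives a Hölder continuous gradient -/
def T_P1 : Prop := ∀ (n : ℕ) (v g : E n → ℝ) (x₀ : E n) (R C s : ℝ), 1 ≤ n → 0 < R → 1 < s →
  s ≤ 2 → ContinuousOn v (ball x₀ (2 * R)) → IntegrableOn v (ball x₀ (2 * R)) →
  IntegrableOn g (ball x₀ (2 * R)) → WLap (ball x₀ (2 * R)) v g →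
  (∀ x ∈ ball x₀ R, ∀ r : ℝ, 0 < r → r ≤ R →
    ∫ y in ball x r, |g y| ≤ C * r ^ ((n : ℝ) - 2 + s)) →
  Pool.Agent.H70.RG.HH 1 v (ball x₀ R)

/-- LM: the means converge -/
def T_LM : Prop := ∀ (n : ℕ) (φ ζ : E n → ℝ), IsKer φ ζ → ∀ (v : E n → ℝ) (U : Set (E n)),
  IsOpen U → IntegrableOn v U →
  (∀ᵐ x ∂(volume.restrict U), Tendsto (fun t : ℝ => cv (dil φ t) v x) (𝓝[>] 0) (𝓝 (v x))) ∧
  (ContinuousOn v U → ∀ x ∈ U, Tendsto (fun t : ℝ => cv (dil φ t) v x) (𝓝[>] 0) (𝓝 (v x)))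

/-- CG1: the smooth Caccioppoli inequality for mollified solutions -/
def T_CG1 : Prop := ∀ (n m : ℕ) (φ ζ : E n → ℝ) (u : E n → E m) (D : Fin m → E n → E n)
  (f : E n → E m) (x₀ : E n) (R K o t : ℝ) (c : E m) (η : E n → ℝ), IsKer φ ζ → 0 < R →
  0 < t → t ≤ R → 0 ≤ K → Sol (ball x₀ (3 * R)) u D f →
  (∀ᵐ x ∂(volume.restrict (ball x₀ (3 * R))), ‖f x‖ ≤ K * ∑ a, ‖D a x‖ ^ 2) →
  (∀ x ∈ ball x₀ (3 * R), ‖u x - c‖ ≤ o) → Tst (ball x₀ (2 * R)) η → (∀ x, 0 ≤ η x) →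
  ∫ x, η x ^ 2 * ∑ a, ∑ i, cv (dil φ t) (fun y => D a y i) x ^ 2 ≤
    2 * K * o * ∫ x, cv (dil φ t) (fun y => η y ^ 2) x * ∑ a, ‖D a x‖ ^ 2 +
      4 * o ^ 2 * ∫ x, ∑ i, dd i η x ^ 2

/-- CG2: Caccioppoli's inequality -/
def T_CG2 : Prop := ∀ (n m : ℕ) (u : E n → E m) (D : Fin m → E n → E n)
  (f : E n → E m) (x₀ : E n) (R K o : ℝ) (c : E m) (η : E n → ℝ), 1 ≤ n → 0 < R →
  0 ≤ K → K * o ≤ 1 / 4 → Sol (ball x₀ (3 * R)) u D f →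
  (∀ᵐ x ∂(volume.restrict (ball x₀ (3 * R))), ‖f x‖ ≤ K * ∑ a, ‖D a x‖ ^ 2) →
  (∀ x ∈ ball x₀ (3 * R), ‖u x - c‖ ≤ o) → Tst (ball x₀ (2 * R)) η → (∀ x, 0 ≤ η x) →
  ∫ x, η x ^ 2 * ∑ a, ‖D a x‖ ^ 2 ≤ 8 * o ^ 2 * ∫ x, ∑ i, dd i η x ^ 2

/-- CUT: cutoff functions -/
def T_CTF : Prop := ∀ n : ℕ, ∃ C : ℝ, ∀ (x₀ : E n) (r : ℝ), 0 < r → ∃ η : E n → ℝ,
  ContDiff ℝ ∞ η ∧ tsupport η ⊆ closedBall x₀ (3 / 2 * r) ∧ (∀ x, 0 ≤ η x ∧ η x ≤ 1) ∧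
  (∀ x ∈ closedBall x₀ r, η x = 1) ∧ ∀ i x, |dd i η x| ≤ C / r

/-- D1: Hölder continuous gradient of harmonic maps with Morrey decay -/
def T_D1 : Prop := ∀ (n m : ℕ) (u : E n → E m) (D : Fin m → E n → E n) (f : E n → E m)
  (x₀ : E n) (R K C : ℝ), 1 ≤ n → 0 < R → Sol (ball x₀ (2 * R)) u D f →
  (∀ᵐ x ∂(volume.restrict (ball x₀ (2 * R))), ‖f x‖ ≤ K * ∑ a, ‖D a x‖ ^ 2) →
  (∀ x ∈ ball x₀ R, ∀ r : ℝ, 0 < r → r ≤ R →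
    ∫ y in ball x r, ∑ a, ‖D a y‖ ≤ C * r ^ ((n : ℝ) - 1 + 3 / 4)) →
  ∃ (u' : E n → E m) (r : ℝ), 0 < r ∧ r ≤ R ∧
    (∀ᵐ x ∂(volume.restrict (ball x₀ r)), u' x = u x) ∧
    Pool.Agent.H70.RG.HH 1 u' (ball x₀ r) ∧
    ∀ᵐ x ∂(volume.restrict (ball x₀ r)), ∀ a i, D a x i = (fderiv ℝ u' x (bv i)) a

end

end Pool.Agent.H86.RG
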