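import Pool.Agent.H87.SN.Defs

/-! Partial regularity of stationary harmonic maps (MP_2697e3_an), part E: from Morrey decay of the
gradient to smoothness. Definitions. Everything is local and for real functions on `E n`. -/

set_option autoImplicit false

namespace Pool.Agent.H86.RG

open MeasureTheory Metric Set Filter Topology Pool.Agent.H87.SN
open scoped ContDiff RealInnerProductSpace ENNReal

noncomputable section

variable {n : ℕ}

/-- the partial derivative in the direction of the `i`-th coordinate -/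
def dd (i : Fin n) (f : E n → ℝ) (x : E n) : ℝ := fderiv ℝ f x (bv i)

/-- iterated partial derivatives: `dds (i :: l) f = dds l (dd i f)` -/
def dds : List (Fin n) → (E n → ℝ) → E n → ℝ
  | [], f => f
  | i :: l, f => dds l (dd i f)

/-- the Laplacian -/
def lap (f : E n → ℝ) (x : E n) : ℝ := ∑ i : Fin n, dd i (dd i f) x

/-- tests in the open set `U` -/
def Tst (U : Set (E n)) (ψ : E n → ℝ) : Prop :=
  ContDiff ℝ ∞ ψ ∧ HasCompactSupport ψ ∧ tsupport ψ ⊆ U

/-- the pair of kernels of the telescoping identity: `2^n φ(2x) - φ(x) = Δζ(x)`. The symmetry of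
`φ` is included. -/
structure IsKer (φ ζ : E n → ℝ) : Prop where
  sφ : ContDiff ℝ ∞ φ
  sζ : ContDiff ℝ ∞ ζ
  zφ : ∀ x, 1 ≤ ‖x‖ → φ x = 0
  zζ : ∀ x, 1 ≤ ‖x‖ → ζ x = 0
  pos : ∀ x, 0 ≤ φ x
  even : ∀ x, φ (-x) = φ x
  one : ∫ x, φ x = 1
  tel : ∀ x, 2 ^ n * φ ((2 : ℝ) • x) - φ x = lap ζ x

/-- dilation of a kernel: `t^(-n) k(x/t)` -/
def dil (k : E n → ℝ) (t : ℝ) (x : E n) : ℝ := (t ^ n)⁻¹ * k (t⁻¹ • x)

/-- convolution -/
def cv (k v : E n → ℝ) (x : E n) : ℝ := ∫ y, k (x - y) * v y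

/-- `g = -Δv` on `U` in the sense of distributions -/
def WLap (U : Set (E n)) (v g : E n → ℝ) : Prop :=
  ∀ ψ : E n → ℝ, Tst U ψ → ∫ x, v x * lap ψ x = -∫ x, g x * ψ x

/-- `D` is the gradient of `v` on `U` in the sense of distributions -/
def WGr (U : Set (E n)) (v : E n → ℝ) (D : E n → E n) : Prop :=
  ∀ ψ : E n → ℝ, Tst U ψ → ∀ i : Fin n, ∫ x, v x * dd i ψ x = -∫ x, D x i * ψ x

/-- `v` is Hölder continuous near `x` with some exponent -/
def LH (v : E n → ℝ) (x : E n) : Prop :=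
  ∃ γ C r : ℝ, 0 < γ ∧ 0 < r ∧ ∀ y ∈ ball x r, ∀ z ∈ ball x r, |v y - v z| ≤ C * ‖y - z‖ ^ γ

/-- `v` is `j` times differentiable on `U`, the partial derivatives of order `j` are locally Hölder
continuous -/
def HH : ℕ → (E n → ℝ) → Set (E n) → Prop
  | 0, v, U => ∀ x ∈ U, LH v x
  | j + 1, v, U => (∀ x ∈ U, DifferentiableAt ℝ v x) ∧ ∀ i : Fin n, HH j (dd i v) U

end

end Pool.Agent.H86.RG
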