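import Pool.Agent.H86.RG.OUT0
import Pool.Agent.H4.RG6.CG1
import Pool.Agent.H1.RG6.E

/-! Partial regularity of stationary harmonic maps (MP_2697e3_an), output of part E: harmonic maps
with Morrey decay of the gradient are smooth. -/

set_option autoImplicit false

namespace Pool.Agent.H86.RG

theorem f_CG1 : Pool.Agent.H82.RG6.T_CG1 := Pool.Agent.H4.RG6.pf_CG1p f_DIL
theorem f_CG2 : T_CG2 := h_CG2 f_CG1
theorem f_CAC : T_CAC := h_CAC f_CG1
theorem f_D1 : T_D1 := h_D1 f_CG1
theorem f_E : T_E := Pool.Agent.H1.RG6.pf_E f_D1 f_HLO f_HMO f_SYS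

end Pool.Agent.H86.RG
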