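import Pool.Agent.H59.RG6.CAC
import Pool.Agent.H82.RG6.CG2
import Pool.Agent.H68.RG6.CTF
import Pool.Agent.H25.RG6.D1
import Pool.Agent.H97.RG6.DCV
import Pool.Agent.H34.RG6.DIL
import Pool.Agent.H82.RG6.INT
import Pool.Agent.H86.RG6.KEX
import Pool.Agent.H43.RG6.E6LM
import Pool.Agent.H59.RG6.MOR
import Pool.Agent.H12.RG6.P1
import Pool.Agent.H13.RG6.REP
import Pool.Agent.H43.RG6.E6RPG
import Pool.Agent.H95.RG6.E6SM0
import Pool.Agent.H43.RG6.E6SM1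
import Pool.Agent.H76.RG6.TRC
import Pool.Agent.H29.RG.BOO
import Pool.Agent.H33.RG.ECVD
import Pool.Agent.H89.RG.ECVL
import Pool.Agent.H79.RG.HAL
import Pool.Agent.H96.RG.EHBI
import Pool.Agent.H70.RG.HBK
import Pool.Agent.H66.RG.EHCD
import Pool.Agent.H96.RG.EHCO
import Pool.Agent.H38.RG.EHLO
import Pool.Agent.H96.RG.EHMO
import Pool.Agent.H38.RG.EIBP
import Pool.Agent.H74.RG.RPF
import Pool.Agent.H82.RG.SCH
import Pool.Agent.H51.RG.SER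
import Pool.Agent.H96.RG.ESYS
import Pool.Agent.H86.RG.KER

/-! Partial regularity of stationary harmonic maps (MP_2697e3_an), part E: the proofs of the rows
put together. -/

set_option autoImplicit false

namespace Pool.Agent.H86.RG

open Pool.Agent.H70.RG

theorem f_DIL : T_DIL := Pool.Agent.H34.RG6.pf_DIL
theorem f_DCV : T_DCV := Pool.Agent.H97.RG6.pf_DCV f_DIL
theorem f_TRC : T_TRC := Pool.Agent.H76.RG6.pf_TRC
theorem f_REP : T_REP := Pool.Agent.H13.RG6.pf_REP f_DIL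
theorem f_RPG : T_RPG := Pool.Agent.H43.RG6.pf_RPG f_DIL
theorem f_LM : T_LM := Pool.Agent.H43.RG6.pf_LM f_DIL
theorem f_INT : T_INT := Pool.Agent.H82.RG6.pf_INT
theorem f_SM0 : T_SM0 := Pool.Agent.H95.RG6.pf_SM0 f_INT
theorem f_SER : T_SER := Pool.Agent.H51.RG.pf_SER
theorem f_HLO : T_HLO := Pool.Agent.H38.RG.pf_HLO
theorem f_HMO : T_HMO := Pool.Agent.H96.RG.pf_HMO f_HLO
theorem f_HAL : T_HAL := Pool.Agent.H79.RG.pf_HAL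
theorem f_HBI : T_HBI := Pool.Agent.H96.RG.pf_HBI f_HLO f_HMO f_HAL
theorem f_HCO : T_HCO := Pool.Agent.H96.RG.pf_HCO f_HLO f_HMO f_HBI
theorem f_HCD : T_HCD := Pool.Agent.H66.RG.pf_HCD f_HLO f_HMO
theorem f_CVD : T_CVD := Pool.Agent.H33.RG.pf_CVD
theorem f_CVL : T_CVL := Pool.Agent.H89.RG.pf_CVL f_CVD
theorem f_HBK : T_HBK := Pool.Agent.H70.RG.pf_HBK f_CVL
theorem f_RPF : T_RPF := Pool.Agent.H74.RG.pf_RPF f_CVL
theorem f_KEX : T_KEX := Pool.Agent.H86.RG6.pf_KEX pf_KER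
theorem f_SCH : Pool.Agent.H70.RG.T_SCH :=
  Pool.Agent.H82.RG.pf_SCH f_HLO f_HMO f_HAL f_HCD f_CVL f_SER f_HBK f_RPF f_KEX
theorem f_IBP : T_IBP := Pool.Agent.H38.RG.pf_IBP
theorem f_BOO : T_BOO := Pool.Agent.H29.RG.pf_BOO f_HMO f_SCH f_IBP
theorem f_SYS : T_SYS :=
  Pool.Agent.H96.RG.pf_SYS f_HLO f_HMO f_HAL f_HBI f_HCO f_HCD f_IBP f_BOO
theorem f_SM1 : T_SM1 := Pool.Agent.H43.RG6.pf_SM1 f_INT f_SER f_HLO
theorem f_MOR : T_MOR :=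
  Pool.Agent.H59.RG6.pf_MOR pf_KER f_DIL f_DCV f_TRC f_RPG f_LM f_SM0
theorem f_P1 : T_P1 :=
  Pool.Agent.H12.RG6.pf_P1 pf_KER f_DIL f_DCV f_TRC f_REP f_LM f_SM1 f_HLO f_HAL f_HCD
theorem f_CTF : T_CTF := Pool.Agent.H68.RG6.pf_CTF
theorem h_CG2 (h : Pool.Agent.H82.RG6.T_CG1) : T_CG2 :=
  Pool.Agent.H82.RG6.pf_CG2 pf_KER f_DIL f_LM h
theorem h_CAC (h : Pool.Agent.H82.RG6.T_CG1) : T_CAC :=
  Pool.Agent.H59.RG6.pf_CAC f_CTF (h_CG2 h)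
theorem h_D1 (h : Pool.Agent.H82.RG6.T_CG1) : T_D1 :=
  Pool.Agent.H25.RG6.pf_D1 f_MOR (h_CAC h) f_P1 f_HAL f_HLO f_HMO f_IBP

end Pool.Agent.H86.RG
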